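import Pool.Agent.helper67.TPE.Spec

/-!
Row tpe:SGP (MP_ebc808_nt): binary digits read to the base `4`.
-/

set_option autoImplicit false

open Finset PowerSeries

noncomputable section

namespace Pool.Agent.TPE

open Pool.Agent.EP Pool.Agent.PQ

theorem SGP_zero : sg 0 = 0 := by
  simp [sg]

theorem SGP_step (n : ℕ) : sg n = n % 2 + 4 * sg (n / 2) := by
  rcases Nat.eq_zero_or_pos n with h | h
  · subst h
    simp [SGP_zero]
  · unfold sg
    rw [Nat.digits_def' (by norm_num) h, Nat.ofDigits_cons]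

theorem SGP_mono (n : ℕ) : ∀ m, m < n → sg m < sg n := by
  induction n using Nat.strong_induction_on with
  | _ n ih =>
    intro m hm
    rw [SGP_step m, SGP_step n]
    rcases Nat.lt_or_ge (m / 2) (n / 2) with h | h
    · have h1 := ih (n / 2) (by omega) (m / 2) h
      omega
    · have h1 : m / 2 = n / 2 := by omega
      rw [h1]
      omega

theorem SGP_compl (κ : ℕ) : ∀ j, j < 2 ^ κ → sg j + sg (2 ^ κ - 1 - j) = sg (2 ^ κ - 1) := by
  induction κ with
  | zero =>
    intro j hj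
    have : j = 0 := by
      rw [pow_zero] at hj
      omega
    subst this
    simp [SGP_zero]
  | succ κ ih =>
    intro j hj
    have h2 : 2 ^ (κ + 1) = 2 * 2 ^ κ := by ring
    have hp : 0 < 2 ^ κ := by positivity
    have h1 := ih (j / 2) (by omega)
    rw [SGP_step j, SGP_step (2 ^ (κ + 1) - 1 - j), SGP_step (2 ^ (κ + 1) - 1)]
    have e1 : (2 ^ (κ + 1) - 1 - j) / 2 = 2 ^ κ - 1 - j / 2 := by omega
    have e2 : (2 ^ (κ + 1) - 1) / 2 = 2 ^ κ - 1 := by omega
    have e3 : j % 2 + (2 ^ (κ + 1) - 1 - j) % 2 = 1 := by omega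
    have e4 : (2 ^ (κ + 1) - 1) % 2 = 1 := by omega
    rw [e1, e2, e4]
    omega

theorem SGP_top (κ : ℕ) : 3 * sg (2 ^ κ - 1) + 1 = 4 ^ κ := by
  induction κ with
  | zero => simp [SGP_zero]
  | succ κ ih =>
    have h2 : 2 ^ (κ + 1) = 2 * 2 ^ κ := by ring
    have hp : 0 < 2 ^ κ := by positivity
    rw [SGP_step (2 ^ (κ + 1) - 1)]
    have e2 : (2 ^ (κ + 1) - 1) / 2 = 2 ^ κ - 1 := by omega
    have e4 : (2 ^ (κ + 1) - 1) % 2 = 1 := by omega
    rw [e2, e4, pow_succ, ← ih]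
    ring

theorem SGP : SGP_stmt :=
  ⟨fun m n h => SGP_mono n m h, fun κ j h => SGP_compl κ j h, SGP_top⟩

end Pool.Agent.TPE
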